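import Mathlib
import Pool.Agent.Helper3_PQE.Stmts
import Pool.Agent.Helper6_PPX.Hgt

/-! # Squad PQE: module Q-HGB (as `Helper39_PQX/Hgb.lean`, with an exceptional hypersurface) -/

set_option autoImplicit false

universe u

namespace Pool.Agent.PQE.H39

open MvPolynomial PGH PRS.H47H PPX PPX.H6 PPZ

theorem aux_le (m d : ℕ) (o : ℤ) (h : m ≤ d) : -((d : ℤ) * max 0 (-o)) ≤ m * o := by
  have h1 : (m : ℤ) ≤ d := by exact_mod_cast h
  have h0 : (0 : ℤ) ≤ m := Int.natCast_nonneg m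
  rcases le_total 0 o with ho | ho
  · rw [max_eq_left (by omega), mul_zero, neg_zero]
    exact mul_nonneg h0 ho
  · rw [max_eq_right (by omega)]
    nlinarith

section

variable {k E : Type u} [Field k] [Field E] [Algebra k E] [IsAlgClosed k] [CharZero k] [FF k E]

omit [IsAlgClosed k] [CharZero k] [FF k E] in
theorem ge_aeval2 (x z : E) (e : ℕ) (H : MvPolynomial (Fin 2) k) (hH : ∀ l, degreeOf l H ≤ e)
    (P : Place k E) :
    P.Ge (-(e * max 0 (-P.ord x) + e * max 0 (-P.ord z))) (aeval ![x, z] H) := by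
  rw [aeval_def, eval₂_eq']
  refine Place.Ge.sum fun m hm => ?_
  have h0 := (degreeOf_le_iff.1 (hH 0)) m hm
  have h1 := (degreeOf_le_iff.1 (hH 1)) m hm
  rw [Fin.prod_univ_two]
  have hg : P.Ge (0 + ((m 0) * P.ord x + (m 1) * P.ord z)) (algebraMap k E (coeff m H) *
      (x ^ m 0 * z ^ m 1)) :=
    (P.ge_const _).mul ((P.ge_ord.pow _).mul (P.ge_ord.pow _))
  refine hg.mono ?_
  have a0 := aux_le (m 0) e (P.ord x) h0
  have a1 := aux_le (m 1) e (P.ord z) h1
  linarith

theorem ht_aeval2 (x z : E) (e : ℕ) (H : MvPolynomial (Fin 2) k) (hH : ∀ l, degreeOf l H ≤ e) :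
    (ht k (aeval ![x, z] H) : ℤ) ≤ e * (ht k x + ht k z) := by
  classical
  obtain ⟨s, hs⟩ := exists_big (L := k) ![x, z, aeval ![x, z] H]
  have hx : ∀ P ∉ s, P.ord x = 0 := fun P hP => hs 0 P hP
  have hz : ∀ P ∉ s, P.ord z = 0 := fun P hP => hs 1 P hP
  have hw : ∀ P ∉ s, P.ord (aeval ![x, z] H) = 0 := fun P hP => hs 2 P hP
  rw [← sum_poles_eq x s hx, ← sum_poles_eq z s hz, ← sum_poles_eq _ s hw, mul_add,
    Finset.mul_sum, Finset.mul_sum, ← Finset.sum_add_distrib]
  refine Finset.sum_le_sum fun P _ => ?_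
  have h2 : (0 : ℤ) ≤ e * max 0 (-P.ord x) + e * max 0 (-P.ord z) := by positivity
  by_cases h0 : aeval ![x, z] H = 0
  · rw [h0, P.ord_zero, neg_zero, max_self]
    exact h2
  · have hP := ge_aeval2 x z e H hH P
    rw [P.ge_iff h0] at hP
    refine max_le h2 ?_
    linarith

/-- the number of places where some `c r` is not a unit or `w` vanishes -/
theorem card_bad2 {R : ℕ} (c : Fin R → E) (w : E) (hw : w ≠ 0) (s : Finset (Place k E))
    (h : ∀ P ∈ s, (∃ r, P.ord (c r) ≠ 0) ∨ P.Ge 1 w) :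
    (s.card : ℤ) ≤ ∑ r, 2 * (ht k (c r) : ℤ) + ht k w := by
  classical
  obtain ⟨t, ht⟩ := exists_big (L := k) (fun _ : Fin 1 => w)
  have h1 := card_bad c (s.filter (fun P => ∃ r, P.ord (c r) ≠ 0))
    (fun P hP => (Finset.mem_filter.1 hP).2)
  have h2 : ((s.filter (fun P => ¬ ∃ r, P.ord (c r) ≠ 0)).card : ℤ) ≤ PGH.ht k w := by
    rw [← sum_zeros_eq w t (ht 0)]
    have hss : s.filter (fun P => ¬ ∃ r, P.ord (c r) ≠ 0) ⊆ t.filter (fun P => 1 ≤ P.ord w) := by
      intro P hP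
      rw [Finset.mem_filter] at hP
      have h3 : P.Ge 1 w := (h P hP.1).resolve_left hP.2
      rw [P.ge_iff hw] at h3
      rw [Finset.mem_filter]
      refine ⟨?_, h3⟩
      by_contra h4
      have h5 := ht 0 P h4
      omega
    have h6 := card_filter_le t (fun P : Place k E => 1 ≤ P.ord w)
      (fun P => max 0 (P.ord w)) (fun P _ hP => le_max_of_le_right hP)
      (fun P _ => le_max_left _ _)
    have h7 := Finset.card_le_card hss
    have h8 : ((s.filter (fun P => ¬ ∃ r, P.ord (c r) ≠ 0)).card : ℤ) ≤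
        ((t.filter (fun P => 1 ≤ P.ord w)).card : ℤ) := by exact_mod_cast h7
    exact h8.trans h6
  have h3 := Finset.card_filter_add_card_filter_not (s := s) (fun P => ∃ r, P.ord (c r) ≠ 0)
  have h4 : (s.card : ℤ) = (s.filter (fun P => ∃ r, P.ord (c r) ≠ 0)).card +
      (s.filter (fun P => ¬ ∃ r, P.ord (c r) ≠ 0)).card := by exact_mod_cast h3.symm
  rw [h4]
  linarith

/-- the degenerate case -/
theorem one_side2 (D : Derivation ℤ E E) (cp : Place k E → ℕ) (sc : Finset (Place k E))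
    (hB : Bp D cp sc) {N R : ℕ} (z : E) (b : Fin N → k) (c : Fin R → E) (e : ℕ) (w : E)
    (hw : w ≠ 0) (hwe : (ht k w : ℤ) ≤ e * ht k z) (hN : 20 * (e + 1) ≤ N)
    (hb : Function.Injective b) (hz : ∀ j, z ≠ algebraMap k E (b j))
    (hDb : ∀ j, D (algebraMap k E (b j)) = 0) (hDz : D z ≠ 0)
    (hP : ∀ P : Place k E, (∀ r, P.ord (c r) = 0) → ¬ P.Ge 1 w →
      ∀ j, P.ord (z - algebraMap k E (b j)) ≠ 1) :
    (ht k z : ℤ) ≤ ∑ P ∈ sc, (cp P : ℤ) + ∑ r, 2 * (ht k (c r) : ℤ) := by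
  classical
  obtain ⟨s, hs⟩ := exists_big (L := k) (fun j => z - algebraMap k E (b j))
  have hram := PRS.H41.ram D cp sc hB.cp0 hB.dge N b z hb hDb hDz ∅
    (fun P hP => absurd hP (Set.notMem_empty P)) s
  simp only [Set.mem_empty_iff_false, if_false] at hram
  have h1 := cnt N z b hb hz s hs (fun P => ∃ j, P.ord (z - algebraMap k E (b j)) = 1)
    (fun P h => h) _ hram
  have h2 := card_bad2 c w hw (s.filter (fun P => ∃ j, P.ord (z - algebraMap k E (b j)) = 1)) (by
    intro P hP1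
    rw [Finset.mem_filter] at hP1
    by_contra hcon
    push Not at hcon
    obtain ⟨j, hj⟩ := hP1.2
    exact hP P hcon.1 hcon.2 j hj)
  have h3 : ((20 * (e + 1) : ℕ) : ℤ) * ht k z ≤ N * ht k z :=
    mul_le_mul_of_nonneg_right (by exact_mod_cast hN) (by positivity)
  have h4 : 0 ≤ ∑ P ∈ sc, (cp P : ℤ) := Finset.sum_nonneg fun P _ => by positivity
  have h5 : 0 ≤ ∑ r, 2 * (ht k (c r) : ℤ) := Finset.sum_nonneg fun P _ => by positivity
  have h6 : (0 : ℤ) ≤ ht k z := by positivity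
  have h7 : (0 : ℤ) ≤ e * ht k z := by positivity
  push_cast at h3
  have h8 : (20 : ℤ) * (e + 1) * ht k z = 20 * (e * ht k z) + 20 * ht k z := by ring
  rw [h8] at h3
  linarith

end

/-- HGB -/
theorem hgb (e : ℕ) : HgbStmt.{u} e := by
  classical
  intro k E _ _ _ _ _ _ _ D hD cp sc hB N₁ N₂ R x z a b c F H hN₁ hN₂ ha hb hx hz hH hH0 hPa hF
    hF0
  have hDk : ∀ κ : k, D (algebraMap k E κ) = 0 := fun κ => (hD _).2 ⟨κ, rfl⟩
  have hC0 : 0 ≤ ∑ P ∈ sc, (cp P : ℤ) := Finset.sum_nonneg fun P _ => by positivity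
  have hB0 : 0 ≤ ∑ r, 2 * (ht k (c r) : ℤ) := Finset.sum_nonneg fun P _ => by positivity
  have hwe := ht_aeval2 x z e H hH
  set w : E := aeval ![x, z] H with hw
  suffices hmain : (ht k x : ℤ) + ht k z ≤
      10 * ∑ P ∈ sc, (cp P : ℤ) + 10 * ∑ r, 2 * (ht k (c r) : ℤ) by
    exact_mod_cast hmain
  have hge : ∀ (P : Place k E) (y : E) (κ : k), P.ord (y - algebraMap k E κ) = 1 → P.Ge 0 y := by
    intro P y κ h
    have h1 : P.Ge 1 (y - algebraMap k E κ) := by
      have := P.ge_ord (y := y - algebraMap k E κ)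
      rwa [h] at this
    exact P.ge_zero_of_res h1
  by_cases hDx : D x = 0
  · obtain ⟨κ, hκ⟩ := (hD x).1 hDx
    have hx0 : ht k x = 0 := by rw [← hκ, ht_const]
    by_cases hDz : D z = 0
    · obtain ⟨κ', hκ'⟩ := (hD z).1 hDz
      have hz0 : ht k z = 0 := by rw [← hκ', ht_const]
      rw [hx0, hz0, Nat.cast_zero]
      linarith
    · have hwe' : (ht k w : ℤ) ≤ e * ht k z := by
        rw [hx0, Nat.cast_zero, zero_add] at hwe
        exact hwe
      have h1 := one_side2 D cp sc hB z b c e w hH0 hwe' hN₂ hb hz (fun j => hDk _) hDz (by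
        intro P hc hPw j hj
        have hx1 : P.Ge 0 x := by rw [← hκ]; exact P.ge_const κ
        obtain ⟨i, hi⟩ := (hPa P hc hx1 (hge P z _ hj) hPw).2 j hj
        rw [← hκ, ← map_sub] at hi
        refine P.not_ge_one_const (sub_ne_zero.2 ?_) hi
        intro h7
        apply hx i
        rw [← hκ, h7])
      rw [hx0, Nat.cast_zero]
      linarith
  · by_cases hDz : D z = 0
    · obtain ⟨κ, hκ⟩ := (hD z).1 hDz
      have hz0 : ht k z = 0 := by rw [← hκ, ht_const]
      have hwe' : (ht k w : ℤ) ≤ e * ht k x := by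
        rw [hz0, Nat.cast_zero, add_zero] at hwe
        exact hwe
      have h1 := one_side2 D cp sc hB x a c e w hH0 hwe' hN₁ ha hx (fun j => hDk _) hDx (by
        intro P hc hPw i hi
        have hz1 : P.Ge 0 z := by rw [← hκ]; exact P.ge_const κ
        obtain ⟨j, hj⟩ := (hPa P hc (hge P x _ hi) hz1 hPw).1 i hi
        rw [← hκ, ← map_sub] at hj
        refine P.not_ge_one_const (sub_ne_zero.2 ?_) hj
        intro h7
        apply hz j
        rw [← hκ, h7])
      rw [hz0, Nat.cast_zero]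
      linarith
    · obtain ⟨s, hs⟩ := exists_big (L := k) (Sum.elim c (fun _ : Fin 1 => w))
      set bd := s.filter (fun P => (∃ r, P.ord (c r) ≠ 0) ∨ P.Ge 1 w) with hbd
      have hbd0 : ∀ P ∉ bd, (∀ r, P.ord (c r) = 0) ∧ ¬ P.Ge 1 w := by
        intro P hP
        constructor
        · intro r
          by_contra h0
          apply hP
          rw [hbd, Finset.mem_filter]
          refine ⟨?_, Or.inl ⟨r, h0⟩⟩
          by_contra h1
          exact h0 (hs (Sum.inl r) P h1)
        · intro h0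
          apply hP
          rw [hbd, Finset.mem_filter]
          refine ⟨?_, Or.inr h0⟩
          by_contra h1
          have h2 : P.ord w = 0 := hs (Sum.inr 0) P h1
          rw [P.ge_iff hH0, h2] at h0
          omega
      have hcard := card_bad2 c w hH0 bd (fun P hP => (Finset.mem_filter.1 hP).2)
      have h1 := hF D cp sc bd hD hB x z hDx hDz
        ⟨fun P hP _ i hi h4 =>
            (hPa P (hbd0 P hP).1 (hge P x _ hi) h4 (hbd0 P hP).2).1 i hi,
          fun P hP _ j hj h4 =>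
            (hPa P (hbd0 P hP).1 h4 (hge P z _ hj) (hbd0 P hP).2).2 j hj⟩ hF0
      have h2 : (20 : ℤ) * (e + 1) * (ht k x + ht k z) ≤
        20 * (∑ P ∈ sc, (cp P : ℤ) + bd.card) := by exact_mod_cast h1
      have h3 : (20 : ℤ) * (e + 1) * (ht k x + ht k z) =
        20 * (e * (ht k x + ht k z)) + 20 * (ht k x + ht k z) := by ring
      rw [h3] at h2
      linarith

end Pool.Agent.PQE.H39
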